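import Pool.Agent.Q273.V.Stm2
import Pool.Agent.Q273.TR.Fin
import Pool.Agent.Q149.V.BC

/-!
The inequalities for heights, from the finiteness theorems.
-/

set_option autoImplicit false

namespace Q273.V

open Polynomial Q273.TR

open scoped Classical in
/-- The logarithmic discriminant `d(x)` of the field `ℚ(x)`. -/
noncomputable def logDisc (x : ℂ) : ℝ :=
  if _ : NumberField (IntermediateField.adjoin ℚ ({x} : Set ℂ)) then
    Real.log |(NumberField.discr (IntermediateField.adjoin ℚ ({x} : Set ℂ)) : ℝ)| /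
      Module.finrank ℚ (IntermediateField.adjoin ℚ ({x} : Set ℂ)) else 0

lemma logDisc_eq {s : ℕ} (hs : 1 ≤ s) {f : ℤ[X]} {x : ℂ} (h : IsMin s f x) :
    logDisc x = Real.log (dsc x) / s := by
  have h1 := Pool.Agent.Q149.V.mi_numberField hs h
  have h2 := Pool.Agent.Q149.V.mi_finrank hs h
  unfold logDisc dsc
  rw [dif_pos h1, dif_pos h1, h2]

lemma DD_eq (f : ℤ[X]) (ξ : ℝ) : DD 0 f ξ = aeval ξ f := by
  unfold DD
  rw [hasseDeriv_zero, LinearMap.id_apply, eval_map, aeval_def]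
  rfl

lemma law_of_fin (hdle : S_DLE) {s : ℕ} (hs : 1 ≤ s) {ξ ε c : ℝ} (hε : 0 < ε) (hc : 0 ≤ c)
    (hfin : {f : ℤ[X] | ∃ x : ℂ, IsMin s f x ∧
      |aeval ξ f| ≤ M f ^ (-1 - ε) / dsc x ^ c}.Finite) :
    ∃ C : ℝ, ∀ (f : ℤ[X]) (x : ℂ), IsMin s f x →
      prox ξ f ≤ (2 + ε) * height f + c * logDisc x + C := by
  obtain ⟨C₀, hC₀, hd⟩ := hdle s hs
  have hs0 : (0 : ℝ) < s := by exact_mod_cast hs
  refine ⟨Real.log (max 1 |ξ|) + ∑ f ∈ hfin.toFinset, |prox ξ f - (2 + ε) * height f|,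
    fun f x hx => ?_⟩
  have hd1 := (hd f x hx).1
  have hlog : 0 ≤ Real.log (dsc x) := Real.log_nonneg hd1
  have hdd : 0 ≤ c * logDisc x := by
    rw [logDisc_eq hs hx]; positivity
  have hξ0 := Real.log_nonneg (le_max_left 1 |ξ|)
  have hsum0 : 0 ≤ ∑ f ∈ hfin.toFinset, |prox ξ f - (2 + ε) * height f| :=
    Finset.sum_nonneg fun _ _ => abs_nonneg _
  by_cases hmem : f ∈ hfin.toFinset
  · have h1 := Finset.single_le_sum (f := fun f => |prox ξ f - (2 + ε) * height f|)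
      (fun _ _ => abs_nonneg _) hmem
    have h2 := (le_abs_self (prox ξ f - (2 + ε) * height f)).trans h1
    linarith
  · rw [Set.Finite.mem_toFinset, Set.mem_ofPred_eq, not_exists] at hmem
    have h3 := hmem x
    rw [not_and, not_le] at h3
    have h4 := h3 hx
    have hf0 : f ≠ 0 := hx.1.ne_zero
    have hdeg : f.natDegree = s := hx.2.1
    have hM1 : 1 ≤ M f := one_le_mah f hf0
    have hM0 : 0 < M f := by linarith
    have hd0 : 0 < dsc x := by linarith
    have hpos : 0 < M f ^ (-1 - ε) / dsc x ^ c := by positivity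
    have hev : 0 < |DD 0 f ξ| := by rw [DD_eq]; exact hpos.trans h4
    rw [prox_eq ξ hf0 (by omega) (abs_pos.1 hev), hdeg]
    have h5 := Real.log_le_log hpos h4.le
    rw [Real.log_div (by positivity) (by positivity), Real.log_rpow hM0, Real.log_rpow hd0,
      ← DD_eq] at h5
    have hh : Real.log (mah f) = s * height f := by
      unfold height mah
      rw [hdeg]
      field_simp
    have hMm : Real.log (M f) = s * height f := hh
    rw [hMm] at h5
    have h6 : (Real.log (mah f) - Real.log |DD 0 f ξ|) / s ≤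
        (2 + ε) * height f + c * logDisc x := by
      rw [div_le_iff₀ hs0, logDisc_eq hs hx, hh]
      have e : ((2 + ε) * height f + c * (Real.log (dsc x) / s)) * s =
          (2 + ε) * (s * height f) + c * Real.log (dsc x) := by
        field_simp
      rw [e]
      linarith
    linarith

lemma logDisc_le (hdle : S_DLE) (s : ℕ) (hs : 1 ≤ s) : ∃ C : ℝ, ∀ (f : ℤ[X]) (x : ℂ),
    IsMin s f x → logDisc x ≤ (2 * (s : ℝ) - 2) * height f + C := by
  obtain ⟨C₀, hC₀, hd⟩ := hdle s hs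
  have hs0 : (0 : ℝ) < s := by exact_mod_cast hs
  refine ⟨|Real.log C₀|, fun f x hx => ?_⟩
  obtain ⟨h1, h2⟩ := hd f x hx
  have hf0 : f ≠ 0 := hx.1.ne_zero
  have hdeg : f.natDegree = s := hx.2.1
  have hM1 : 1 ≤ M f := one_le_mah f hf0
  have hh : Real.log (M f) = s * height f := by
    unfold height M
    rw [hdeg]
    field_simp
  have h3 := Real.log_le_log (by linarith) h2
  rw [Real.log_mul hC₀.ne' (by positivity), Real.log_pow, hh] at h3
  have h4 : ((2 * s - 2 : ℕ) : ℝ) = 2 * (s : ℝ) - 2 := by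
    rw [Nat.cast_sub (by omega)]; push_cast; ring
  rw [h4] at h3
  rw [logDisc_eq hs hx, div_le_iff₀ hs0]
  have h5 : Real.log C₀ ≤ |Real.log C₀| * s := by
    have h6 : (1 : ℝ) ≤ s := by exact_mod_cast hs
    exact (le_abs_self _).trans (le_mul_of_one_le_right (abs_nonneg _) h6)
  have e : ((2 * (s : ℝ) - 2) * height f + |Real.log C₀|) * s =
    (2 * (s : ℝ) - 2) * (s * height f) + |Real.log C₀| * s := by ring
  rw [e]
  linarith

/-- optimality -/
theorem sharp (hdiri : S_DIRI) (hdle : S_DLE) {ξ : ℝ}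
    (hspr : ∀ s : ℕ, 1 ≤ s → ∀ ε : ℝ, 0 < ε →
      {a : Fin (s + 1) → ℤ | a ≠ 0 ∧ |DD 0 (Pv a) ξ| ≤ (sz a : ℝ) ^ (-(s : ℝ) - ε)}.Finite)
    (s : ℕ) (hs : 1 ≤ s) : ∃ C : ℝ, {f : ℤ[X] | Irreducible f ∧ f.natDegree = s ∧
      ∀ x : ℂ, aeval x f = 0 → 2 * height f + logDisc x / 2 - C ≤ prox ξ f}.Infinite := by
  obtain ⟨C₁, h1⟩ := part2 hdiri hspr s hs
  obtain ⟨C₂, h2⟩ := logDisc_le hdle s hs
  refine ⟨C₁ + |C₂|, h1.mono ?_⟩
  rintro f ⟨hirr, hdeg, hf⟩
  refine ⟨hirr, hdeg, fun x hx => ?_⟩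
  have h3 := h2 f x ⟨hirr, hdeg, hx⟩
  have h4 := le_abs_self C₂
  have h5 := abs_nonneg C₂
  linarith

end Q273.V
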