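import Pool.Agent.Q149.V.BC

/-!
# Algebraic numbers of degree `s` near almost every real number

The proof is by helper149; here the exponent of the number of fields is arbitrary.
-/

set_option autoImplicit false

namespace Q273.V

open Polynomial MeasureTheory Pool.Agent.Q149.V

theorem abs_aeval (hmin : S_MIN) {K : Type} [Field K] [NumberField K] {s : ℕ} (hs : 1 ≤ s)
    (hK : Module.finrank ℚ K = s) {x : K} {f : ℤ[X]} (h : IsMin s f x) (ξ : ℝ) :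
    |aeval ξ f| = lc f * ∏ σ : K →+* ℂ, ‖(ξ : ℂ) - σ x‖ := by
  have h1 := (hmin K s x f hs hK h).1
  have h2 : ((aeval ξ f : ℝ) : ℂ) = (f.map (Int.castRingHom ℂ)).eval (ξ : ℂ) := by
    rw [eval_map, ← Complex.coe_algebraMap, ← aeval_algebraMap_apply, Complex.coe_algebraMap]
    rfl
  rw [← Real.norm_eq_abs, ← Complex.norm_real, h2, h1, eval_mul, eval_C, eval_prod, norm_mul, norm_prod]
  congr 1
  · rw [lc, Complex.norm_intCast]
  · refine Finset.prod_congr rfl fun σ _ => ?_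
    rw [eval_sub, eval_X, eval_C]

theorem field_meas (hsep : S_SEP) (hmin : S_MIN) (hcells : S_CELLS) (s n : ℕ) (δ : ℝ) (hs : 1 ≤ s)
    (hδ : 0 < δ) : ∃ C : ℝ, 0 < C ∧ ∀ (K : Type) [Field K] [NumberField K],
    Module.finrank ℚ K = s → ∀ T κ : ℝ, 1 ≤ T → 0 < κ → κ * T ≤ 1 →
      volume {ξ : ℝ | |ξ| ≤ n ∧ ∃ (f : ℤ[X]) (z : K), 0 < f.leadingCoeff ∧ IsMin s f z ∧
        M f ≤ T ∧ |aeval ξ f| ≤ κ} ≤
      ENNReal.ofReal (C * (T / κ) ^ δ * (κ * T) ^ (1 / (s : ℝ))) := by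
  obtain ⟨C, hC, hc⟩ := hcells s n δ hs hδ
  classical
  refine ⟨C, hC, fun K _ _ hK T κ hT hκ hκT => ?_⟩
  have hcard : Fintype.card (K →+* ℂ) = s := by rw [← hK]; exact NumberField.Embeddings.card K ℂ
  let e : Fin s ≃ (K →+* ℂ) := (Fintype.equivFinOfCardEq hcard).symm
  have hcount : Countable K := by
    have h1 := (Module.finBasis ℚ K).equivFun.toEquiv
    exact h1.countable_iff.mpr inferInstance
  let ι : Type := {z : K // ∃ f : ℤ[X], 0 < f.leadingCoeff ∧ IsMin s f z ∧ M f ≤ T}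
  let fz : ι → ℤ[X] := fun z => z.2.choose
  have hfz : ∀ z : ι, 0 < (fz z).leadingCoeff ∧ IsMin s (fz z) z.1 ∧ M (fz z) ≤ T :=
    fun z => z.2.choose_spec
  have hlcM : ∀ z : ι, lc (fz z) ≤ M (fz z) ∧ ∀ σ : K →+* ℂ, ‖σ z.1‖ ≤ M (fz z) := by
    intro z
    have h1 := hmin K s z.1 (fz z) hs hK (hfz z).2.1
    have h2 : ∀ σ : K →+* ℂ, max 1 ‖σ z.1‖ ≤ ∏ τ : K →+* ℂ, max 1 ‖τ z.1‖ := by
      intro σ
      rw [← Finset.mul_prod_erase Finset.univ (fun τ : K →+* ℂ => max 1 ‖τ z.1‖) (Finset.mem_univ σ)]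
      refine le_mul_of_one_le_right (by positivity) ?_
      exact Finset.one_le_prod fun τ _ => le_max_left _ _
    have h3 : (1 : ℝ) ≤ ∏ τ : K →+* ℂ, max 1 ‖τ z.1‖ := Finset.one_le_prod fun τ _ => le_max_left _ _
    rw [h1.2.2.1]
    have h4 : 0 ≤ lc (fz z) := abs_nonneg _
    refine ⟨le_mul_of_one_le_right h4 h3, fun σ => ?_⟩
    calc ‖σ z.1‖ ≤ max 1 ‖σ z.1‖ := le_max_right _ _
      _ ≤ ∏ τ : K →+* ℂ, max 1 ‖τ z.1‖ := h2 σ
      _ ≤ lc (fz z) * ∏ τ : K →+* ℂ, max 1 ‖τ z.1‖ :=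
        le_mul_of_one_le_left (by linarith) h1.2.2.2.1
  have hmain := hc ι (fun z => lc (fz z)) (fun z i => e i z.1) T κ hT hκ hκT
    (fun z => ⟨(hmin K s z.1 (fz z) hs hK (hfz z).2.1).2.2.2.1, (hlcM z).1.trans (hfz z).2.2,
      fun i => ((hlcM z).2 (e i)).trans (hfz z).2.2⟩)
    (fun x y hxy => by
      have h1 := hsep K s x.1 y.1 (fz x) (fz y) hK (hfz x).2.1 (hfz y).2.1
        (fun h => hxy (Subtype.ext h))
      rw [← Equiv.prod_comp e] at h1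
      exact h1)
  refine (measure_mono ?_).trans hmain
  rintro ξ ⟨hξ, f, z, hf0, hfz', hfM, hfξ⟩
  refine ⟨hξ, ⟨z, f, hf0, hfz', hfM⟩, ?_⟩
  have h1 : fz ⟨z, f, hf0, hfz', hfM⟩ = f :=
    mi_unique hs (hfz ⟨z, f, hf0, hfz', hfM⟩).2.1 hfz' (hfz ⟨z, f, hf0, hfz', hfM⟩).1 hf0
  show lc (fz ⟨z, f, hf0, hfz', hfM⟩) * ∏ i, ‖(ξ : ℂ) - e i z‖ ≤ κ
  rw [h1, Equiv.prod_comp e (fun σ => ‖(ξ : ℂ) - σ z‖), ← abs_aeval hmin hs hK hfz' ξ]
  exact hfξ

/-- the measure of the exceptional sets -/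
theorem ee_meas (hsep : S_SEP) (hmin : S_MIN) (hcells : S_CELLS) (s : ℕ)
    (hs : 2 ≤ s) (e : ℝ) (he0 : 0 ≤ e) (hfld : FLD s e) (ε : ℝ) (hε : 0 < ε) (n a : ℕ) :
    ∃ (C η : ℝ) (k₀ : ℕ), 0 < C ∧ 0 < η ∧ ∀ k j : ℕ, k₀ ≤ k → j ≤ a * (k + 1) →
      volume (EE s ε (s * e) n k j) ≤
        ENNReal.ofReal (C * (2 : ℝ) ^ (-η * k)) := by
  set c : ℝ := s * e with hc
  have hs0 : (2 : ℝ) ≤ s := by exact_mod_cast hs
  have hspos : (0 : ℝ) < s := by linarith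
  have hc0 : 0 ≤ c := by
    rw [hc]
    positivity
  have hce : c / s = e := by
    rw [hc]
    field_simp
  set W : ℝ := a + 2 + ε + a * c with hW
  have hWpos : 0 < W := by positivity
  set δ : ℝ := ε / (2 * s * W) with hδ
  have hδpos : 0 < δ := by positivity
  obtain ⟨C₁, hC₁, hF⟩ := hfld δ hδpos
  obtain ⟨C₂, hC₂, hV⟩ := field_meas hsep hmin hcells s n δ (by omega) hδpos
  obtain ⟨k₀, hk₀⟩ := exists_nat_ge (1 / ε)
  set E₀ : ℝ := e + 1 / s + δ * (a + 2 + a * c) with hE₀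
  refine ⟨C₁ * C₂ * 2 ^ E₀, ε / (2 * s), k₀, by positivity, by positivity, ?_⟩
  intro k j hk hj
  have hkε : 1 ≤ k * ε := by
    have h1 : 1 / ε ≤ k := hk₀.trans (by exact_mod_cast hk)
    rwa [div_le_iff₀ hε] at h1
  have hjr : (j : ℝ) ≤ a * (k + 1) := by exact_mod_cast hj
  have hk0 : (0 : ℝ) ≤ k := Nat.cast_nonneg k
  have hj0 : (0 : ℝ) ≤ j := Nat.cast_nonneg j
  have ha0 : (0 : ℝ) ≤ a := Nat.cast_nonneg a
  set Y : ℝ := (2 : ℝ) ^ ((j : ℝ) + 1) with hY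
  have hY1 : 1 ≤ Y := Real.one_le_rpow one_le_two (by linarith)
  have hfin := fld_finite hF Y hY1
  set 𝒦 := hfin.toFinset with h𝒦
  have h𝒦card : (𝒦.card : ℝ) ≤ C₁ * Y ^ (e + δ) := by
    refine hF Y 𝒦 hY1 fun K hK => ?_
    rw [h𝒦, Set.Finite.mem_toFinset] at hK
    exact hK
  set T : ℝ := (2 : ℝ) ^ ((k : ℝ) + 1) with hT
  set κ : ℝ := (2 : ℝ) ^ (-(k * (1 + ε)) - j * c) with hκ
  have hT1 : 1 ≤ T := Real.one_le_rpow one_le_two (by linarith)
  have hκ0 : 0 < κ := Real.rpow_pos_of_pos two_pos _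
  have hκT : κ * T = (2 : ℝ) ^ (1 - k * ε - j * c) := by
    rw [hκ, hT, ← Real.rpow_add two_pos]
    congr 1
    ring
  have hκT1 : κ * T ≤ 1 := by
    rw [hκT]
    refine Real.rpow_le_one_of_one_le_of_nonpos one_le_two ?_
    have := mul_nonneg hj0 hc0
    linarith
  have hTκ : T / κ = (2 : ℝ) ^ (k * (2 + ε) + 1 + j * c) := by
    rw [hκ, hT, ← Real.rpow_sub two_pos]
    congr 1
    ring
  set S : IntermediateField ℚ ℂ → Set ℝ := fun K => {ξ : ℝ | |ξ| ≤ n ∧ ∃ (f : ℤ[X]) (z : K),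
    0 < f.leadingCoeff ∧ IsMin s f z ∧ M f ≤ T ∧ |aeval ξ f| ≤ κ} with hS
  have hcover : EE s ε c n k j ⊆ ⋃ K ∈ 𝒦, S K := by
    rintro ξ ⟨hξ, f, x, hf0, hfx, hM1, hM2, hd1, hd2, hfe⟩
    have hnf := mi_numberField (by omega) hfx
    have hdeq := dsc_eq x
    rw [Set.mem_iUnion₂]
    refine ⟨IntermediateField.adjoin ℚ ({x} : Set ℂ), ?_, ?_⟩
    · rw [h𝒦, Set.Finite.mem_toFinset]
      refine ⟨hnf, mi_finrank (by omega) hfx, ?_⟩
      rw [← hdeq, hY]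
      refine hd2.le.trans (le_of_eq ?_)
      rw [← Real.rpow_natCast]
      push_cast
      rfl
    · refine ⟨hξ, f, gen x, hf0, (mi_gen (gen x)).mpr hfx, ?_, ?_⟩
      · refine hM2.le.trans (le_of_eq ?_)
        rw [hT, ← Real.rpow_natCast]
        push_cast
        rfl
      · refine hfe.trans ?_
        have h2k : (0 : ℝ) < 2 ^ k := by positivity
        have h2j : (0 : ℝ) < 2 ^ j := by positivity
        have h1 : M f ^ (-1 - ε) ≤ ((2 : ℝ) ^ k) ^ (-1 - ε) :=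
          Real.rpow_le_rpow_of_nonpos h2k hM1 (by linarith)
        have h2 : ((2 : ℝ) ^ j) ^ c ≤ dsc x ^ c := Real.rpow_le_rpow h2j.le hd1 hc0
        have h3 : κ = ((2 : ℝ) ^ k) ^ (-1 - ε) / ((2 : ℝ) ^ j) ^ c := by
          rw [hκ, ← Real.rpow_natCast, ← Real.rpow_natCast, ← Real.rpow_mul two_pos.le,
            ← Real.rpow_mul two_pos.le, ← Real.rpow_sub two_pos]
          congr 1
          ring
        rw [h3]
        exact div_le_div₀ (by positivity) h1 (by positivity) h2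
  refine (measure_mono hcover).trans ((measure_biUnion_finset_le _ _).trans ?_)
  have hSK : ∀ K ∈ 𝒦, volume (S K) ≤
      ENNReal.ofReal (C₂ * (T / κ) ^ δ * (κ * T) ^ (1 / (s : ℝ))) := by
    intro K hK
    rw [h𝒦, Set.Finite.mem_toFinset] at hK
    obtain ⟨hN, hKs, _⟩ := hK
    exact hV K hKs T κ hT1 hκ0 hκT1
  refine (Finset.sum_le_sum hSK).trans ?_
  rw [Finset.sum_const, nsmul_eq_mul, ← ENNReal.ofReal_natCast, ← ENNReal.ofReal_mul (Nat.cast_nonneg _)]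
  refine ENNReal.ofReal_le_ofReal ?_
  have hval : C₂ * (T / κ) ^ δ * (κ * T) ^ (1 / (s : ℝ)) =
      C₂ * 2 ^ ((k * (2 + ε) + 1 + j * c) * δ + (1 - k * ε - j * c) * (1 / s)) := by
    rw [hTκ, hκT, ← Real.rpow_mul two_pos.le, ← Real.rpow_mul two_pos.le, mul_assoc,
      ← Real.rpow_add two_pos]
  have hYval : Y ^ (e + δ) = 2 ^ ((j + 1) * (e + δ)) := by
    rw [hY, ← Real.rpow_mul two_pos.le]
  rw [hval]
  rw [hYval] at h𝒦card
  calc (𝒦.card : ℝ) * (C₂ * 2 ^ ((k * (2 + ε) + 1 + j * c) * δ + (1 - k * ε - j * c) * (1 / s)))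
      ≤ (C₁ * 2 ^ ((j + 1) * (e + δ))) *
        (C₂ * 2 ^ ((k * (2 + ε) + 1 + j * c) * δ + (1 - k * ε - j * c) * (1 / s))) :=
        mul_le_mul_of_nonneg_right h𝒦card (by positivity)
    _ = C₁ * C₂ * 2 ^ ((j + 1) * (e + δ) +
        ((k * (2 + ε) + 1 + j * c) * δ + (1 - k * ε - j * c) * (1 / s))) := by
        rw [Real.rpow_add two_pos ((j + 1) * (e + δ))]
        ring
    _ ≤ C₁ * C₂ * 2 ^ (E₀ + -(ε / (2 * s)) * k) := by
        refine mul_le_mul_of_nonneg_left ?_ (by positivity)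
        refine Real.rpow_le_rpow_of_exponent_le one_le_two ?_
        have e1 : (1 - k * ε - j * c) * (1 / s) = 1 / s - k * ε / s - j * e := by
          rw [← hce]
          field_simp
        have e2 : δ * W = ε / (2 * s) := by
          rw [hδ]
          field_simp
        have e3 : k * ε / s = 2 * (k * (ε / (2 * s))) := by
          field_simp
        have e4 : (j : ℝ) * δ ≤ a * (k + 1) * δ := mul_le_mul_of_nonneg_right hjr hδpos.le
        have e5 : (j : ℝ) * c * δ ≤ a * (k + 1) * c * δ :=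
          mul_le_mul_of_nonneg_right (mul_le_mul_of_nonneg_right hjr hc0) hδpos.le
        have e6 : k * (ε / (2 * s)) = k * (δ * W) := by rw [e2]
        have e7 : -(ε / (2 * s)) * k = -(k * (ε / (2 * s))) := by ring
        rw [e1, e3, e7, e6, hE₀, hW]
        nlinarith [e4, e5]
    _ = C₁ * C₂ * 2 ^ E₀ * 2 ^ (-(ε / (2 * s)) * k) := by
        rw [Real.rpow_add two_pos]
        ring

theorem fins (hsep : S_SEP) (hmin : S_MIN) (hcells : S_CELLS) (hdle : S_DLE) : S_FINS := by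
  intro s e ε hs he0 hfld hε
  exact bc hdle s (by omega) ε _ (ee_meas hsep hmin hcells s hs e he0 hfld ε hε)

end Q273.V
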