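import Pool.Agent.Q273.V.Stm
import Pool.Agent.W222.UABC.Main
import Pool.Agent.W222.UABC.Schmidt

/-!
The number of number fields of given degree: transfer of the library theorems to the subfields of `ℂ`.
-/

set_option autoImplicit false

namespace Q273.V

open Polynomial MeasureTheory NumberField Module

lemma transfer {Ω : Type} [Field Ω] [Algebra ℚ Ω] [IsAlgClosed Ω] (ι : Ω →ₐ[ℚ] ℂ)
    (K : IntermediateField ℚ ℂ) [hN : NumberField K] :
    (K.comap ι).map ι = K ∧ finrank ℚ (K.comap ι) = finrank ℚ K ∧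
      ∃ _ : NumberField (K.comap ι), discr (K.comap ι) = discr K := by
  have h1 : (K.comap ι).map ι = K := by
    apply le_antisymm
    · exact (IntermediateField.map_le_iff_le_comap).2 le_rfl
    · intro x hx
      have hint : IsIntegral ℚ (⟨x, hx⟩ : K) := Algebra.IsIntegral.isIntegral _
      set p := minpoly ℚ (⟨x, hx⟩ : K) with hp
      have hpx : aeval x p = 0 := by
        have h2 := minpoly.aeval ℚ (⟨x, hx⟩ : K)
        have h3 := aeval_algebraMap_apply ℂ (⟨x, hx⟩ : K) p
        rw [← hp] at h2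
        rw [h2, map_zero] at h3
        exact h3
      have hmon : p.Monic := minpoly.monic hint
      have hsp : (p.map (algebraMap ℚ Ω)).Splits := IsAlgClosed.splits _
      have hroots : x ∈ (p.map (algebraMap ℚ ℂ)).roots := by
        rw [mem_roots (hmon.map _).ne_zero, IsRoot.def, eval_map, ← aeval_def]
        exact hpx
      have e : p.map (algebraMap ℚ ℂ) = (p.map (algebraMap ℚ Ω)).map (ι : Ω →+* ℂ) := by
        rw [map_map]
        congr 1
        exact (ι.comp_algebraMap).symm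
      rw [e, hsp.roots_map] at hroots
      obtain ⟨y, hy, rfl⟩ := Multiset.mem_map.1 hroots
      exact ⟨y, hx, rfl⟩
  let g : (K.comap ι) ≃+* ((K.comap ι).map ι : IntermediateField ℚ ℂ) :=
    @AlgEquiv.toRingEquiv (_) (_) (_) (_) (_) (_) (_) (_) (IntermediateField.equivMap (K.comap ι) ι)
  let g1 : ((K.comap ι).map ι : IntermediateField ℚ ℂ) ≃+* K :=
    @AlgEquiv.toRingEquiv (_) (_) (_) (_) (_) (_) (_) (_) (IntermediateField.equivOfEq h1)
  let g' : (K.comap ι) ≃+* K := g.trans g1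
  let l : (K.comap ι) ≃ₗ[ℚ] K :=
    { g'.toAddEquiv with map_smul' := fun c x => map_rat_smul g' c x }
  have h2 : finrank ℚ (K.comap ι) = finrank ℚ K := l.finrank_eq
  have h3 : NumberField (K.comap ι) := NumberField.of_ringEquiv K (K.comap ι) g'.symm
  exact ⟨h1, h2, h3, discr_eq_discr_of_ringEquiv _ g'⟩

/-- the number of subfields of `ℂ` from the number of subfields of the algebraic closure -/
lemma fld_of {n : ℕ} {e : ℝ} (h : ∃ C : ℝ, 0 < C ∧ ∀ X : ℝ, 1 ≤ X →
    (Pool.Agent.W301.Lin.FS ℚ n X).Finite ∧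
      ((Pool.Agent.W301.Lin.FS ℚ n X).ncard : ℝ) ≤ C * X ^ e) : FLD n e := by
  obtain ⟨C, hC, hX⟩ := h
  intro δ hδ
  refine ⟨C, hC, fun Y F hY hF => ?_⟩
  classical
  obtain ⟨h1, h2⟩ := hX Y hY
  have hY0 : 0 < Y := by linarith
  obtain ⟨ι⟩ : Nonempty (@AlgHom ℚ (AlgebraicClosure ℚ) ℂ _ _ _
      (AlgebraicClosure.instAlgebra ℚ) _) := by
    have h3 : Algebra.IsAlgebraic ℚ (AlgebraicClosure ℚ) := AlgebraicClosure.isAlgebraic ℚ
    exact ⟨IsAlgClosed.lift⟩
  have key : ∀ K ∈ F, (K.comap ι) ∈ Pool.Agent.W301.Lin.FS ℚ n Y ∧ (K.comap ι).map ι = K := by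
    intro K hK
    obtain ⟨hNF, hdeg, hdisc⟩ := hF K hK
    obtain ⟨h3, h4, h5, h6⟩ := transfer ι K
    refine ⟨⟨h4.trans hdeg, h5, ?_⟩, h3⟩
    rw [h6, Int.cast_abs]
    exact hdisc
  have h3 : F.card ≤ (Pool.Agent.W301.Lin.FS ℚ n Y).ncard := by
    rw [← Set.ncard_coe_finset]
    refine Set.ncard_le_ncard_of_injOn (fun K => K.comap ι) (fun K hK => (key K hK).1) ?_ h1
    intro K hK K' hK' he
    have h4 := (key K hK).2
    have h5 := (key K' hK').2
    simp only at he
    rw [he, h5] at h4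
    exact h4.symm
  have h4 : (F.card : ℝ) ≤ ((Pool.Agent.W301.Lin.FS ℚ n Y).ncard : ℝ) := by exact_mod_cast h3
  refine h4.trans (h2.trans (mul_le_mul_of_nonneg_left ?_ hC.le))
  exact Real.rpow_le_rpow_of_exponent_le hY (by linarith)

theorem fldg : S_FLDG := by
  obtain ⟨e, he1, he2, he3⟩ := Pool.Agent.W222.UABC.linnik
  refine ⟨fun n => min (e n) (eS n), ?_, fun n hn => ⟨?_, min_le_right _ _⟩, fun n hn => ?_⟩
  · intro c hc
    filter_upwards [he1 c hc] with n hn
    exact (min_le_left _ _).trans hn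
  · refine le_min ((by norm_num : (0 : ℝ) ≤ 2 / 3).trans (he2 n)) ?_
    unfold eS
    positivity
  · rcases le_total (e n) (eS n) with h | h
    · simp only [min_eq_left h]
      exact fld_of (he3 n hn)
    · simp only [min_eq_right h]
      exact fld_of (Pool.Agent.W222.UABC.schmidt hn)

end Q273.V
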