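import Pool.Agent.Q273.QP.All
import Pool.Agent.Q273.V.Fin

/-!
Points of degree at most two near almost every real number, from the project QP.
-/

set_option autoImplicit false

open MeasureTheory Polynomial

namespace Q273.V

open Q273.QP (ZHat Law1 hv IsPt)

/-- a property of the real component which holds at almost every adele holds at almost every real -/
lemma ae_real {P : ℝ → Prop}
    (h : ∀ [MeasurableSpace ZHat] [BorelSpace ZHat] (μ : Measure ZHat) [IsFiniteMeasure μ]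
      [μ.IsAddLeftInvariant], ∀ᵐ w : ℝ × ZHat ∂(volume.prod μ), P w.1) : ∀ᵐ ξ : ℝ, P ξ := by
  letI : MeasurableSpace ZHat := borel ZHat
  haveI : BorelSpace ZHat := ⟨rfl⟩
  haveI : ∀ p : Nat.Primes, CompactSpace (@PadicInt p.1 ⟨p.2⟩) := fun p => by
    haveI : Fact p.1.Prime := ⟨p.2⟩
    infer_instance
  haveI : ∀ p : Nat.Primes, IsTopologicalAddGroup (@PadicInt p.1 ⟨p.2⟩) := fun p => by
    haveI : Fact p.1.Prime := ⟨p.2⟩
    infer_instance
  haveI : ∀ p : Nat.Primes, T2Space (@PadicInt p.1 ⟨p.2⟩) := fun p => by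
    haveI : Fact p.1.Prime := ⟨p.2⟩
    infer_instance
  let μ : Measure ZHat := Measure.addHaar
  have h1 := h μ
  have h2 := Measure.ae_ae_of_ae_prod h1
  filter_upwards [h2] with ξ hξ
  exact Filter.eventually_const.1 hξ

lemma value_one_zero (f : ℤ[X]) : hv 1 0 f = f.leadingCoeff := by
  unfold hv
  rw [Finset.sum_range_succ, Finset.sum_eq_zero]
  · simp
  · intro i hi
    have h1 : f.natDegree - i ≠ 0 := by
      have := Finset.mem_range.1 hi
      omega
    rw [zero_pow h1, mul_zero]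

lemma N1_le_height {f : ℤ[X]} (hf : f ≠ 0) : Q273.QP.N1 ∅ 1 0 f ≤ Q273.QP.height f := by
  unfold Q273.QP.N1 Q273.QP.height
  refine div_le_div_of_nonneg_right ?_ (Nat.cast_nonneg _)
  rw [value_one_zero, Finset.sdiff_empty]
  have hlc : f.leadingCoeff ≠ 0 := leadingCoeff_ne_zero.2 hf
  have h1 : (∏ p ∈ f.leadingCoeff.natAbs.primeFactors, p) ≤ f.leadingCoeff.natAbs :=
    Nat.le_of_dvd (Int.natAbs_pos.2 hlc) (Nat.prod_primeFactors_dvd _)
  have h2 : ∑ p ∈ f.leadingCoeff.natAbs.primeFactors, Real.log p =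
      Real.log (∏ p ∈ f.leadingCoeff.natAbs.primeFactors, p : ℕ) := by
    rw [Nat.cast_prod, Real.log_prod]
    intro p hp
    exact_mod_cast (Nat.prime_of_mem_primeFactors hp).ne_zero
  rw [h2]
  have h3 : (0 : ℝ) < (∏ p ∈ f.leadingCoeff.natAbs.primeFactors, p : ℕ) := by
    exact_mod_cast Finset.prod_pos fun p hp => (Nat.prime_of_mem_primeFactors hp).pos
  refine Real.log_le_log h3 ?_
  have h4 : ((∏ p ∈ f.leadingCoeff.natAbs.primeFactors, p : ℕ) : ℝ) ≤ f.leadingCoeff.natAbs := by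
    exact_mod_cast h1
  refine h4.trans ?_
  rw [Nat.cast_natAbs, Int.cast_abs]
  have h5 := Q273.TR.mah_eq f
  have h6 : 1 ≤ ((f.map (Int.castRingHom ℂ)).roots.map (fun z => max 1 ‖z‖)).prod := by
    apply Multiset.one_le_prod
    intro z hz
    obtain ⟨y, _, rfl⟩ := Multiset.mem_map.1 hz
    exact le_max_left _ _
  have h7 : ‖(f.leadingCoeff : ℂ)‖ = |(f.leadingCoeff : ℝ)| := by
    rw [Complex.norm_intCast]
  change _ ≤ Q273.TR.mah f
  rw [h5, h7]
  exact le_mul_of_one_le_right (abs_nonneg _) h6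

theorem low12 : ∀ᵐ ξ : ℝ, ∀ ε : ℝ, 0 < ε → ∃ C : ℝ, ∀ (f : ℤ[X]) (x : ℂ), Irreducible f →
    1 ≤ f.natDegree → f.natDegree ≤ 2 → aeval x f = 0 →
      Q273.TR.prox ξ f ≤ (2 + ε) * Q273.TR.height f + logDisc x / 2 + C := by
  apply ae_real
  intro _ _ μ _ _
  filter_upwards [Q273.QP.lawq μ] with w hw
  intro ε hε
  obtain ⟨C, hC⟩ := (hw ∅).1 ∅ 1 0 ⟨1, 0, by ring⟩ ε hε
  refine ⟨C, fun f x hf h1 h2 hx => ?_⟩
  have hlc : hv 1 0 f ≠ 0 := by
    rw [value_one_zero]
    exact leadingCoeff_ne_zero.2 hf.ne_zero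
  have h3 := hC f x ⟨hf, h1, h2, hx⟩ hlc
  have h4 := N1_le_height hf.ne_zero
  have h5 : Q273.QP.prox ∅ w f = Q273.TR.prox w.1 f := by
    unfold Q273.QP.prox
    rw [Finset.sum_empty, add_zero]
    rfl
  have h6 : Q273.QP.height f = Q273.TR.height f := rfl
  have h7 : Q273.QP.logDisc x = logDisc x := rfl
  rw [h5, h7] at h3
  rw [h6] at h3 h4
  linarith

end Q273.V
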