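import Pool.Agent.Q273.V.T3
import Pool.Agent.Q273.V.Low
import Pool.Agent.Q273.V.Fins
import Pool.Agent.Q273.V.Fldg
import Pool.Agent.Q190.V.Sep
import Pool.Agent.Q150.V.Cells
import Pool.Agent.Q273.TR.Fin
import Pool.Agent.Q273.TR.Cell
import Pool.Agent.Q38.TR.Core
import Pool.Agent.Q166.TR.KMV
import Pool.Agent.Q166.TR.DIRI

/-!
Algebraic points near almost every real number and the discriminants of their fields.
-/

set_option autoImplicit false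

namespace Q273.V

open Polynomial MeasureTheory

/-- points of degree at most three -/
theorem low3 : ∀ᵐ ξ : ℝ, ∀ ε : ℝ, 0 < ε → ∃ C : ℝ, ∀ (f : ℤ[X]) (x : ℂ), Irreducible f →
    1 ≤ f.natDegree → f.natDegree ≤ 3 → aeval x f = 0 →
      Q273.TR.prox ξ f ≤ (2 + ε) * Q273.TR.height f + logDisc x / 2 + C := by
  have h3 : ∀ᵐ ξ : ℝ, ∀ k : ℕ, {f : ℤ[X] | ∃ x : ℂ, IsMin 3 f x ∧
      |aeval ξ f| ≤ M f ^ (-1 - 1 / ((k : ℝ) + 1)) / Real.sqrt (dsc x)}.Finite :=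
    ae_all_iff.2 fun k => fin3h _ (by positivity)
  filter_upwards [low12, h3] with ξ h12 h3 ε hε
  obtain ⟨C₁, h1⟩ := h12 ε hε
  obtain ⟨k, hk⟩ := exists_nat_one_div_lt hε
  have h4 : {f : ℤ[X] | ∃ x : ℂ, IsMin 3 f x ∧
      |aeval ξ f| ≤ M f ^ (-1 - 1 / ((k : ℝ) + 1)) / dsc x ^ (1 / 2 : ℝ)}.Finite := by
    have := h3 k
    simp only [Real.sqrt_eq_rpow] at this
    exact this
  obtain ⟨C₂, h2⟩ := law_of_fin Q137.V.dle (s := 3) (by norm_num)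
    (by positivity : (0 : ℝ) < 1 / ((k : ℝ) + 1)) (by norm_num : (0 : ℝ) ≤ 1 / 2) h4
  refine ⟨max C₁ C₂, fun f x hf hd1 hd3 hx => ?_⟩
  rcases Nat.lt_or_ge f.natDegree 3 with h | h
  · have := h1 f x hf hd1 (by omega) hx
    have := le_max_left C₁ C₂
    linarith
  · have hdeg : f.natDegree = 3 := by omega
    have h5 := h2 f x ⟨hf, hdeg, hx⟩
    have h6 := le_max_right C₁ C₂
    have h7 : 0 ≤ Q273.TR.height f := by
      unfold Q273.TR.height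
      exact div_nonneg (Real.log_nonneg (Q273.TR.one_le_mah f hf.ne_zero)) (Nat.cast_nonneg _)
    have h8 : (2 + 1 / ((k : ℝ) + 1)) * Q273.TR.height f ≤ (2 + ε) * Q273.TR.height f :=
      mul_le_mul_of_nonneg_right (by linarith) h7
    linarith

/-- points of every degree -/
theorem alls {e : ℕ → ℝ} (he : ∀ n : ℕ, 2 ≤ n → 0 ≤ e n) (hF : ∀ n : ℕ, 2 ≤ n → FLD n (e n)) :
    ∀ᵐ ξ : ℝ, ∀ s : ℕ, 2 ≤ s → ∀ ε : ℝ, 0 < ε → ∃ C : ℝ, ∀ (f : ℤ[X]) (x : ℂ), Irreducible f →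
    f.natDegree = s → aeval x f = 0 →
      Q273.TR.prox ξ f ≤ (2 + ε) * Q273.TR.height f + s * e s * logDisc x + C := by
  have hmin := Pool.Agent.Q239.V.min
  have h3 : ∀ᵐ ξ : ℝ, ∀ s : ℕ, ∀ k : ℕ, 2 ≤ s → {f : ℤ[X] | ∃ x : ℂ, IsMin s f x ∧
      |aeval ξ f| ≤ M f ^ (-1 - 1 / ((k : ℝ) + 1)) / dsc x ^ (s * e s)}.Finite := by
    refine ae_all_iff.2 fun s => ae_all_iff.2 fun k => ?_
    by_cases hs : 2 ≤ s
    · filter_upwards [fins Pool.Agent.Q190.V.sep hmin Pool.Agent.Q150.V.cells Q137.V.dle s (e s)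
        (1 / ((k : ℝ) + 1)) hs (he s hs) (hF s hs) (by positivity)] with ξ hξ _
      exact hξ
    · exact Filter.Eventually.of_forall fun ξ h => absurd h hs
  filter_upwards [h3] with ξ h3 s hs ε hε
  obtain ⟨k, hk⟩ := exists_nat_one_div_lt hε
  obtain ⟨C, h2⟩ := law_of_fin Q137.V.dle (s := s) (by omega)
    (by positivity : (0 : ℝ) < 1 / ((k : ℝ) + 1))
    (mul_nonneg (Nat.cast_nonneg s) (he s hs) : (0 : ℝ) ≤ s * e s) (h3 s k hs)
  refine ⟨C, fun f x hf hdeg hx => ?_⟩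
  have h5 := h2 f x ⟨hf, hdeg, hx⟩
  have h7 : 0 ≤ Q273.TR.height f := by
    unfold Q273.TR.height
    exact div_nonneg (Real.log_nonneg (Q273.TR.one_le_mah f hf.ne_zero)) (Nat.cast_nonneg _)
  have h8 : (2 + 1 / ((k : ℝ) + 1)) * Q273.TR.height f ≤ (2 + ε) * Q273.TR.height f :=
    mul_le_mul_of_nonneg_right (by linarith) h7
  linarith

/-- optimality -/
theorem opt : ∀ᵐ ξ : ℝ, ∀ s : ℕ, 1 ≤ s → ∃ C : ℝ, {f : ℤ[X] | Irreducible f ∧ f.natDegree = s ∧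
      ∀ x : ℂ, aeval x f = 0 →
        2 * Q273.TR.height f + logDisc x / 2 - C ≤ Q273.TR.prox ξ f}.Infinite := by
  have hcore := Pool.Agent.Q38.TR.core Q166.TR.kmv Q273.TR.cell
  filter_upwards [Q273.TR.spr hcore] with ξ h1 s hs
  exact sharp Q166.TR.diri Q137.V.dle h1 s hs

end Q273.V
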