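import Mathlib

set_option autoImplicit false

/-!
Algebraic points near almost every real number and the discriminants of their fields: definitions and
statements of lemmas.
-/

namespace Q273.V

open Polynomial MeasureTheory

/-- `f` is the minimal polynomial over `ℤ` of the algebraic number `x` of degree `s`. -/
def IsMin {K : Type} [Field K] (s : ℕ) (f : ℤ[X]) (x : K) : Prop :=
  Irreducible f ∧ f.natDegree = s ∧ aeval x f = 0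

/-- the Mahler measure of an integral polynomial -/
noncomputable def M (f : ℤ[X]) : ℝ := (f.map (Int.castRingHom ℂ)).mahlerMeasure

open scoped Classical in
/-- the absolute value of the discriminant of the field generated by `x` (0 if `x` is
transcendental) -/
noncomputable def dsc (x : ℂ) : ℝ :=
  if _ : NumberField (IntermediateField.adjoin ℚ ({x} : Set ℂ)) then
    |(NumberField.discr (IntermediateField.adjoin ℚ ({x} : Set ℂ)) : ℝ)| else 0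

/-- the absolute value of the derivative of `f` at `z` -/
noncomputable def dv (f : ℤ[X]) (z : ℂ) : ℝ := ‖aeval z (derivative f)‖

/-- the absolute value of the leading coefficient -/
def lc (f : ℤ[X]) : ℝ := |(f.leadingCoeff : ℝ)|

/-! ### Number fields -/

/-- SEP: two generators of a number field are separated. -/
def S_SEP : Prop := ∀ (K : Type) [Field K] [NumberField K] (s : ℕ) (x y : K) (f g : ℤ[X]),
  Module.finrank ℚ K = s → IsMin s f x → IsMin s g y → x ≠ y →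
    1 ≤ lc f * lc g * ∏ σ : K →+* ℂ, ‖σ x - σ y‖

open scoped Classical in
/-- MIN: the minimal polynomial in terms of the conjugates. -/
def S_MIN : Prop := ∀ (K : Type) [Field K] [NumberField K] (s : ℕ) (x : K) (f : ℤ[X]),
  1 ≤ s → Module.finrank ℚ K = s → IsMin s f x →
    f.map (Int.castRingHom ℂ) = C (f.leadingCoeff : ℂ) * ∏ σ : K →+* ℂ, (X - C (σ x)) ∧
    Function.Injective (fun σ : K →+* ℂ => σ x) ∧
    M f = lc f * ∏ σ : K →+* ℂ, max 1 ‖σ x‖ ∧ 1 ≤ lc f ∧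
    ∀ σ : K →+* ℂ, dv f (σ x) = lc f * ∏ τ ∈ Finset.univ.filter (· ≠ σ), ‖σ x - τ x‖

/-- DLOW: the derivative of a cubic minimal polynomial at a zero. -/
def S_DLOW : Prop := ∀ (f : ℤ[X]) (z : ℂ), IsMin 3 f z → 1 ≤ 2 * M f * dv f z

/-- DLE: the discriminant of the field is bounded in terms of the height. -/
def S_DLE : Prop := ∀ s : ℕ, 1 ≤ s → ∃ C : ℝ, 0 < C ∧ ∀ (f : ℤ[X]) (z : ℂ), IsMin s f z →
  1 ≤ dsc z ∧ dsc z ≤ C * M f ^ (2 * s - 2)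

/-- ENUM: the three embeddings of a cubic field. -/
def S_ENUM : Prop := ∀ (K : Type) [Field K] [NumberField K], Module.finrank ℚ K = 3 →
  ∀ σ : K →+* ℂ, ∃ e : Fin 3 ≃ (K →+* ℂ), e 0 = σ ∧
    ((∀ x, (σ x).im = 0) ∨ ((∀ x, e 1 x = (starRingEnd ℂ) (σ x)) ∧ ∀ x, (e 2 x).im = 0))

/-- MOB: the minimal polynomial of the image under a unimodular substitution. -/
def S_MOB : Prop := ∀ (K : Type) [Field K] [NumberField K] (s : ℕ) (x : K) (f : ℤ[X])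
  (p q r t : ℤ), 2 ≤ s → Module.finrank ℚ K = s → IsMin s f x → p * t - q * r = 1 →
    (r : K) * x + t ≠ 0 ∧ ∃ g : ℤ[X], IsMin s g (((p : K) * x + q) / (r * x + t)) ∧
      lc g = lc f * ∏ σ : K →+* ℂ, ‖(r : ℂ) * σ x + t‖

/-- INDEX: the index form of a cubic field. -/
def S_INDEX : Prop := ∀ (K : Type) [Field K] [NumberField K], Module.finrank ℚ K = 3 →
  ∃ (a b c d : ℤ) (x : K), IntermediateField.adjoin ℚ {x} = ⊤ ∧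
    (a : K) * x ^ 3 + b * x ^ 2 + c * x + d = 0 ∧
    b ^ 2 * c ^ 2 - 4 * a * c ^ 3 - 4 * b ^ 3 * d - 27 * a ^ 2 * d ^ 2 + 18 * a * b * c * d =
      NumberField.discr K

/-- the number of the subfields of `ℂ` of degree `s` with discriminant at most `Y` in absolute value
is `O(Y ^ (e + δ))`. -/
def FLD (s : ℕ) (e : ℝ) : Prop := ∀ δ : ℝ, 0 < δ → ∃ C : ℝ, 0 < C ∧
  ∀ (Y : ℝ) (F : Finset (IntermediateField ℚ ℂ)), 1 ≤ Y →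
    (∀ K ∈ F, ∃ _ : NumberField K, Module.finrank ℚ K = s ∧ |(NumberField.discr K : ℝ)| ≤ Y) →
      (F.card : ℝ) ≤ C * Y ^ (e + δ)

/-- FLD3: the number of cubic fields. -/
def S_FLD3 : Prop := FLD 3 1

/-- the exponent of Schmidt's type -/
noncomputable def eS (n : ℕ) : ℝ :=
  (((n + 2) * (n - 1) : ℕ) : ℝ) / (4 * ((n - n / n.minFac : ℕ) : ℝ))

/-- FLDG: the number of fields of degree `s`. -/
def S_FLDG : Prop := ∃ e : ℕ → ℝ,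
  (∀ c : ℝ, 1 / (8 * (Real.log 2) ^ 2) < c →
    ∀ᶠ n : ℕ in Filter.atTop, e n ≤ c * (Real.log n) ^ 2) ∧
  (∀ n : ℕ, 2 ≤ n → 0 ≤ e n ∧ e n ≤ eS n) ∧ ∀ n : ℕ, 2 ≤ n → FLD n (e n)

/-! ### Geometry of numbers -/

/-- CNT: primitive integral vectors near two complex directions. -/
def S_CNT : Prop := ∀ (θ₁ θ₂ : ℂ), θ₁ ≠ θ₂ → ∀ (A B : ℝ), 0 < A → 0 < B →
  ∀ S : Finset (ℤ × ℤ), (∀ v ∈ S, IsCoprime v.1 v.2 ∧ ‖(v.1 : ℂ) - θ₁ * v.2‖ ≤ A ∧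
    ‖(v.1 : ℂ) - θ₂ * v.2‖ ≤ B) → (S.card : ℝ) ≤ 24 * (1 + A * B / ‖θ₁ - θ₂‖)

/-- the matrix `(p q; r t)` maps `x` to a point whose first coordinate is far from the others. -/
def Zm (x : Fin 3 → ℂ) (p q r t : ℤ) : Prop :=
  p * t - q * r = 1 ∧ 0 ≤ ((p * x 0 + q) / (r * x 0 + t)).re ∧
    ((p * x 0 + q) / (r * x 0 + t)).re ≤ 1 ∧
    (∀ i, i ≠ 0 → ‖(r : ℂ) * x 0 + t‖ * ‖(r : ℂ) * x i + t‖ ≤ 8 * ‖x 0 - x i‖) ∧
    ‖(r : ℂ) * x 1 + t‖ * ‖(r : ℂ) * x 2 + t‖ ≤ 8 * max ‖x 0 - x 1‖ ‖x 0 - x 2‖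

/-- ZOOM -/
def S_ZOOM : Prop := ∀ x : Fin 3 → ℂ, Function.Injective x →
  (∀ i, ∀ r t : ℤ, (r : ℂ) * x i + t = 0 → r = 0 ∧ t = 0) →
  ((x 0).im = 0 ∨ (x 1 = (starRingEnd ℂ) (x 0) ∧ (x 2).im = 0)) →
    ∃ p q r t : ℤ, Zm x p q r t

/-- PACK: separated triples. -/
def S_PACK : Prop := ∃ C : ℝ, 0 < C ∧ ∀ (ι : Type) (F : Finset ι) (r : ι → Fin 3 → ℂ)
  (A d₁ d₂ : ℝ), 1 ≤ A → 1 / 8 ≤ d₁ → 1 / 8 ≤ d₂ →
  ((∀ x ∈ F, (r x 0).im = 0) ∨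
    (∀ x ∈ F, r x 1 = (starRingEnd ℂ) (r x 0) ∧ (r x 2).im = 0)) →
  (∀ x ∈ F, 0 ≤ (r x 0).re ∧ (r x 0).re ≤ 1 ∧ ‖r x 0 - r x 1‖ ≤ d₁ ∧ ‖r x 0 - r x 2‖ ≤ d₂) →
  (∀ x ∈ F, ∀ y ∈ F, x ≠ y → 1 ≤ A ^ 2 * ∏ i, ‖r x i - r y i‖) →
    (F.card : ℝ) ≤ C * A ^ 2 * d₁ * d₂

/-- CELLA: the sum over one cell of generators of a cubic field. -/
def S_CELLA : Prop := ∀ n : ℕ, ∃ C : ℝ, 0 < C ∧ ∀ (K : Type) [Field K] [NumberField K],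
  Module.finrank ℚ K = 3 → ∀ (e : Fin 3 ≃ (K →+* ℂ)),
  ((∀ x, (e 0 x).im = 0) ∨ ((∀ x, e 1 x = (starRingEnd ℂ) (e 0 x)) ∧ ∀ x, (e 2 x).im = 0)) →
  ∀ (F : Finset K) (f : K → ℤ[X]) (p q r t : K → ℤ) (T A : ℝ) (D Y : Fin 3 → ℝ),
    1 ≤ T → 0 < A → (∀ i, 0 < D i) → (∀ i, 0 < Y i) →
    (∀ x ∈ F, IsMin 3 (f x) x ∧ M (f x) ≤ T ∧ ‖e 0 x‖ ≤ n ∧ A ≤ lc (f x) ∧ lc (f x) ≤ 2 * A ∧
      (∀ i, i ≠ 0 → D i ≤ ‖e 0 x - e i x‖ ∧ ‖e 0 x - e i x‖ ≤ 2 * D i) ∧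
      Zm (fun i => e i x) (p x) (q x) (r x) (t x) ∧
      ∀ i, Y i ≤ ‖(r x : ℂ) * e i x + t x‖ ∧ ‖(r x : ℂ) * e i x + t x‖ ≤ 2 * Y i) →
    ∑ x ∈ F, 1 / dv (f x) (e 0 x) ≤ C * T

/-- SUMA: the first moment of one cubic field. -/
def S_SUMA : Prop := ∀ (n : ℕ) (ε : ℝ), 0 < ε → ∃ C : ℝ, 0 < C ∧
  ∀ (K : Type) [Field K] [NumberField K], Module.finrank ℚ K = 3 →
  ∀ (σ : K →+* ℂ) (T : ℝ) (F : Finset K) (f : K → ℤ[X]), 1 ≤ T →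
    (∀ x ∈ F, IsMin 3 (f x) x ∧ M (f x) ≤ T ∧ ‖σ x‖ ≤ n) →
      ∑ x ∈ F, 1 / dv (f x) (σ x) ≤ C * T ^ (1 + ε)

/-! ### Measures -/

open scoped Classical in
/-- MEAS3: the measure of the small values of a cubic polynomial. -/
def S_MEAS3 : Prop := ∀ (n : ℕ) (f : ℤ[X]) (z : ℂ) (κ : ℝ), IsMin 3 f z → 0 < κ →
  8 * κ * M f ≤ 1 →
    volume {ξ : ℝ | |ξ| ≤ n ∧ |aeval ξ f| ≤ κ} ≤ ENNReal.ofReal (8 * κ *
      ∑ w ∈ (f.map (Int.castRingHom ℂ)).roots.toFinset.filter (fun w => ‖w‖ ≤ n + 1), 1 / dv f w)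

/-- CELLS: the measure of the neighbourhoods of separated tuples. -/
def S_CELLS : Prop := ∀ (s n : ℕ) (δ : ℝ), 1 ≤ s → 0 < δ → ∃ C : ℝ, 0 < C ∧
  ∀ (ι : Type) [Countable ι] (A : ι → ℝ) (r : ι → Fin s → ℂ) (T κ : ℝ), 1 ≤ T → 0 < κ →
    κ * T ≤ 1 → (∀ x, 1 ≤ A x ∧ A x ≤ T ∧ ∀ i, ‖r x i‖ ≤ T) →
    (∀ x y, x ≠ y → 1 ≤ A x * A y * ∏ i, ‖r x i - r y i‖) →
      volume {ξ : ℝ | |ξ| ≤ n ∧ ∃ x, A x * ∏ i, ‖(ξ : ℂ) - r x i‖ ≤ κ} ≤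
        ENNReal.ofReal (C * (T / κ) ^ δ * (κ * T) ^ (1 / (s : ℝ)))

/-- FIN3: cubic numbers near almost every real number. -/
def S_FIN3 : Prop := ∀ ε : ℝ, 0 < ε → ∀ᵐ ξ : ℝ,
  {f : ℤ[X] | ∃ x : ℂ, IsMin 3 f x ∧ |aeval ξ f| ≤ M f ^ (-1 - ε) / dsc x}.Finite

/-- FINS: algebraic numbers of degree `s` near almost every real number. -/
def S_FINS : Prop := ∀ (s : ℕ) (e ε : ℝ), 2 ≤ s → 0 ≤ e → FLD s e → 0 < ε → ∀ᵐ ξ : ℝ,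
  {f : ℤ[X] | ∃ x : ℂ, IsMin s f x ∧ |aeval ξ f| ≤ M f ^ (-1 - ε) / dsc x ^ (s * e)}.Finite

end Q273.V
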