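import Pool.Agent.Q273.V.Stm

set_option autoImplicit false

/-!
Cubic points near almost every real number: orbits of `SL₂(ℤ)` and the sharp form of the inequality.
-/

namespace Q273.V

open Polynomial MeasureTheory

/-- the discriminant of the cubic form with the coefficients `a`, `b`, `c`, `d` -/
def D4 (a b c d : ℤ) : ℤ :=
  b ^ 2 * c ^ 2 - 4 * a * c ^ 3 - 4 * b ^ 3 * d - 27 * a ^ 2 * d ^ 2 + 18 * a * b * c * d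

/-- the discriminant of a cubic polynomial -/
noncomputable def D3 (f : ℤ[X]) : ℤ := D4 (f.coeff 3) (f.coeff 2) (f.coeff 1) (f.coeff 0)

/-- equivalence under `SL₂(ℤ)` -/
def Eqv {K : Type} [Field K] (x y : K) : Prop :=
  ∃ p q r t : ℤ, p * t - q * r = 1 ∧ (r : K) * x + t ≠ 0 ∧ y = ((p : K) * x + q) / (r * x + t)

/-- DRT: the discriminant in terms of the conjugates. -/
def S_DRT : Prop := ∀ (K : Type) [Field K] [NumberField K], Module.finrank ℚ K = 3 →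
  ∀ (e : Fin 3 ≃ (K →+* ℂ)) (x : K) (f : ℤ[X]), IsMin 3 f x →
    |(D3 f : ℝ)| = lc f ^ 4 * (‖e 0 x - e 1 x‖ * ‖e 0 x - e 2 x‖ * ‖e 1 x - e 2 x‖) ^ 2 ∧
      1 ≤ |(D3 f : ℝ)|

/-- SHELL: the first moment of one orbit. -/
def S_SHELL : Prop := ∀ (n : ℕ) (ε : ℝ), 0 < ε → ∃ C : ℝ, 0 < C ∧
  ∀ (K : Type) [Field K] [NumberField K], Module.finrank ℚ K = 3 →
  ∀ (σ : K →+* ℂ) (T : ℝ) (F : Finset K) (f : K → ℤ[X]) (x₀ : K), 1 ≤ T → x₀ ∈ F →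
    (∀ x ∈ F, IsMin 3 (f x) x ∧ M (f x) ≤ T ∧ ‖σ x‖ ≤ n ∧ Eqv x₀ x) →
      ∑ x ∈ F, 1 / dv (f x) (σ x) ≤ C * T ^ (1 + ε) / Real.sqrt |(D3 (f x₀) : ℝ)|

/-- DMIN: the discriminants of the cubic forms of a cubic field. -/
def S_DMIN : Prop := ∀ (K : Type) [Field K] [NumberField K], Module.finrank ℚ K = 3 →
  ∀ (a b c d : ℤ) (x : K), IntermediateField.adjoin ℚ {x} = ⊤ → a ≠ 0 →
    (a : K) * x ^ 3 + b * x ^ 2 + c * x + d = 0 →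
      ∃ m : ℤ, m ≠ 0 ∧ D4 a b c d = m ^ 2 * NumberField.discr K

/-- the cubic form is maximal at every prime number -/
def Mxl (a b c d : ℤ) : Prop := ∀ p : ℕ, p.Prime →
  ¬ ((p : ℤ) ∣ a ∧ (p : ℤ) ∣ b ∧ (p : ℤ) ∣ c ∧ (p : ℤ) ∣ d) ∧
  ∀ x y : ℤ, ¬ ((p : ℤ) ∣ x ∧ (p : ℤ) ∣ y) →
    ¬ ((p : ℤ) ^ 2 ∣ a * x ^ 3 + b * x ^ 2 * y + c * x * y ^ 2 + d * y ^ 3 ∧
      (p : ℤ) ∣ 3 * a * x ^ 2 + 2 * b * x * y + c * y ^ 2 ∧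
      (p : ℤ) ∣ b * x ^ 2 + 2 * c * x * y + 3 * d * y ^ 2)

/-- MAXK: the index form of a cubic field is maximal. -/
def S_MAXK : Prop := ∀ (K : Type) [Field K] [NumberField K], Module.finrank ℚ K = 3 →
  ∃ (a b c d : ℤ) (x : K), IntermediateField.adjoin ℚ {x} = ⊤ ∧ a ≠ 0 ∧
    (a : K) * x ^ 3 + b * x ^ 2 + c * x + d = 0 ∧ D4 a b c d = NumberField.discr K ∧ Mxl a b c d

/-- REL: the generators of a cubic field modulo `SL₂(ℤ)` are the affine images of one generator. -/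
def S_REL : Prop := ∀ (K : Type) [Field K] [NumberField K], Module.finrank ℚ K = 3 →
  ∀ z x : K, IntermediateField.adjoin ℚ {z} = ⊤ → IntermediateField.adjoin ℚ {x} = ⊤ →
    ∃ α β δ : ℤ, 1 ≤ α ∧ δ ≠ 0 ∧ 0 ≤ β ∧ β < α ∧ Int.gcd (Int.gcd α β) δ = 1 ∧
      Eqv x (((δ : K) * z - β) / α)

/-- the greatest common divisor of the coefficients of `F(α X + β Y, δ Y)` -/
def ct (a b c d α β δ : ℤ) : ℕ :=
  Int.gcd (Int.gcd (a * α ^ 3) (α ^ 2 * (3 * a * β + b * δ)))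
    (Int.gcd (α * (3 * a * β ^ 2 + 2 * b * β * δ + c * δ ^ 2))
      (a * β ^ 3 + b * β ^ 2 * δ + c * β * δ ^ 2 + d * δ ^ 3))

/-- CONT: the discriminants of the minimal polynomials of the affine images. -/
def S_CONT : Prop := ∀ (K : Type) [Field K] [NumberField K], Module.finrank ℚ K = 3 →
  ∀ (a b c d α β δ : ℤ) (z : K) (f : ℤ[X]), a ≠ 0 → 1 ≤ α → δ ≠ 0 →
    (a : K) * z ^ 3 + b * z ^ 2 + c * z + d = 0 → IsMin 3 f (((δ : K) * z - β) / α) →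
      D3 f * (ct a b c d α β δ : ℤ) ^ 4 = (α * δ) ^ 6 * D4 a b c d

/-- INV3: the discriminant is invariant under `SL₂(ℤ)`. -/
def S_INV3 : Prop := ∀ (K : Type) [Field K] [NumberField K], Module.finrank ℚ K = 3 →
  ∀ (x y : K) (f g : ℤ[X]), IsMin 3 f x → IsMin 3 g y → Eqv x y → D3 f = D3 g

/-- CNTT: the number of triples. -/
def S_CNTT : Prop := ∀ θ : ℝ, 0 < θ → ∃ C : ℝ, 0 < C ∧ ∀ a b c d : ℤ, Mxl a b c d →
  ∀ (B : ℝ) (S : Finset (ℤ × ℤ × ℤ)), 1 ≤ B →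
    (∀ t ∈ S, 1 ≤ t.1 ∧ t.2.2 ≠ 0 ∧ 0 ≤ t.2.1 ∧ t.2.1 < t.1 ∧
      Int.gcd (Int.gcd t.1 t.2.1) t.2.2 = 1 ∧
      |(t.1 : ℝ) * t.2.2| ^ 3 ≤ B * (ct a b c d t.1 t.2.1 t.2.2 : ℝ) ^ 2) →
      (S.card : ℝ) ≤ C * B ^ (1 + θ)

/-- ORB: the number of orbits of generators of a cubic field. -/
def S_ORB : Prop := ∀ θ : ℝ, 0 < θ → ∃ C : ℝ, 0 < C ∧
  ∀ (K : Type) [Field K] [NumberField K], Module.finrank ℚ K = 3 →
  ∀ (B : ℝ) (G : Finset K) (f : K → ℤ[X]), 1 ≤ B →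
    (∀ x ∈ G, IsMin 3 (f x) x ∧ |(D3 (f x) : ℝ)| ≤ B ^ 2 * |(NumberField.discr K : ℝ)|) →
    (∀ x ∈ G, ∀ y ∈ G, x ≠ y → ¬ Eqv x y) → (G.card : ℝ) ≤ C * B ^ (1 + θ)

/-- SUMA2: the first moment of one cubic field. -/
def S_SUMA2 : Prop := ∀ (n : ℕ) (ε : ℝ), 0 < ε → ∃ C : ℝ, 0 < C ∧
  ∀ (K : Type) [Field K] [NumberField K], Module.finrank ℚ K = 3 →
  ∀ (σ : K →+* ℂ) (T : ℝ) (F : Finset K) (f : K → ℤ[X]), 1 ≤ T →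
    (∀ x ∈ F, IsMin 3 (f x) x ∧ M (f x) ≤ T ∧ ‖σ x‖ ≤ n) →
      ∑ x ∈ F, 1 / dv (f x) (σ x) ≤ C * T ^ (1 + ε) / Real.sqrt |(NumberField.discr K : ℝ)|

/-- FIN3H: cubic numbers near almost every real number, sharp form. -/
def S_FIN3H : Prop := ∀ ε : ℝ, 0 < ε → ∀ᵐ ξ : ℝ,
  {f : ℤ[X] | ∃ x : ℂ, IsMin 3 f x ∧ |aeval ξ f| ≤ M f ^ (-1 - ε) / Real.sqrt (dsc x)}.Finite

end Q273.V
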