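import Pool.Agent.Q144.V.Fin3h
import Pool.Agent.Q144.V.Rel
import Pool.Agent.Q257.V.SUMA2
import Pool.Agent.Q257.V.ORB
import Pool.Agent.Q257.V.MAXK
import Pool.Agent.Q150.V.Cntt
import Pool.Agent.Q190.V.Shell
import Pool.Agent.Q190.V.Drt
import Pool.Agent.Q190.V.Dmin
import Pool.Agent.Q190.V.Cnt
import Pool.Agent.Q239.V.FLD3
import Pool.Agent.Q239.V.INDEX
import Pool.Agent.Q239.V.MIN
import Pool.Agent.Q177.V.Mob
import Pool.Agent.Q137.V.Meas3
import Pool.Agent.Q137.V.Dle

/-!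
Cubic points near almost every real number: the finiteness theorem.
-/

set_option autoImplicit false

namespace Q273.V

theorem fin3h : S_FIN3H := by
  have hmin := Pool.Agent.Q239.V.min
  have henum := Pool.Agent.Q239.V.enum
  have hdmin := Pool.Agent.Q190.V.dmin
  have hdrt := Pool.Agent.Q190.V.drt hmin
  have hshell := Pool.Agent.Q190.V.shell' hmin henum Pool.Agent.Q177.V.mob Pool.Agent.Q190.V.cnt hdrt
  have hmax := Q257.V.maxk Pool.Agent.Q239.V.index hdmin
  have horb := Q257.V.orb hmax Q144.V.rel Pool.Agent.Q190.V.cont Pool.Agent.Q190.V.inv3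
    Pool.Agent.Q150.V.cntt
  have hsuma := Q257.V.suma2 hshell horb hdrt hdmin hmin henum
  exact Q144.V.fin3h hsuma (Q137.V.meas3 hmin Pool.Agent.Q239.V.dlow)
    (Pool.Agent.Q239.V.fld3 Pool.Agent.Q239.V.index) Q137.V.dle

end Q273.V
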